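import Pool.Agent.H90.MR.Trace
import Pool.Agent.H90.MR.Thin
import Pool.Agent.H85.MR.Cov
import Pool.Agent.H40.MR.Sup
import Pool.Agent.H59.MR.Mom

/-!
# The Lang-Trotter primes of every elliptic curve and almost every rotation

For a Weierstrass equation `W` over `ℤ`, an integer `a`, a set `S` of natural numbers and a natural number `x` let
`tracePrimes W a S x` be the set of the primes `p ≤ x`, not dividing the discriminant, with `a_p(E) = a` and `p ∈ S`
(`Pool/Agent/H90/MR/Trace.lean`; `ap` is `a_p(E)`, `affinePoints` the number of the affine points modulo `p`). So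
`P_{E,a}(x)` is the cardinality for `S = Set.univ`.

For almost every real number `α`, SIMULTANEOUSLY for all elliptic curves `E` over `ℚ`:

* (all traces at once) the number of the primes `p ≤ x` with `a_p(E) = a` and `α p mod 1 < v` is `v P_{E,a}(x)` with an error
  whose squares have the sum `≤ x (log x) ^ 11` over ALL `a`, uniformly in `v`. (There are about `4 √x` traces, and
  `P_{E,a}(x)` has the conjectural size `√x / log x`: the error is in the mean square the fourth root of `x`,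
  the square root of the number of the primes.)
* (one trace) for every `a` the error is at most `√P (log P) ^ (11/2)`, `P = P_{E,a}(x)`, whatever the size of `P`;
* the same for the thin sets of the primes with `α p mod 1 < δ(p)`, for every nonincreasing `δ`, for instance
  `δ(p) = p ^ (-η)`: the error is the square root of the expected number of elements, up to logarithms.

Consequences: for almost every `α` the assertion of Q1 for a curve and a trace (with the value `C` of the constant), the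
assertion in mean square over the traces `|a| ≤ A(x)`, as soon as `A(x) / (log x) ^ 13 → ∞`, and the whole conjecture
are equivalent to the same assertions for the primes with `α p mod 1 < v`, with the constant `v C`; and for almost every
`θ` in `(0, 1)` to those for the primes in the Beatty sequence `⌊n / θ⌋`, with `θ C`.
-/

set_option autoImplicit false

namespace Pool.Agent.Results.MP_f1937f_nt.AllTracesRotations

open Finset Filter MeasureTheory
open Pool.Agent.H90.MR Pool.Agent.H90.MR.Trace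

/-- The assertion of Q1 for one curve, one trace `a`, the primes in `S`, and the constant `C`: the number of the primes
is bounded if `C = 0`, and asymptotic to `C √x / log x` if `C > 0`. -/
def LangTrotter (W : WeierstrassCurve ℤ) (a : ℤ) (S : Set ℕ) (C : ℝ) : Prop :=
  (C = 0 → ∃ B : ℕ, ∀ x : ℕ, (tracePrimes W a S x).card ≤ B) ∧
  (0 < C → Tendsto (fun x : ℕ => ((tracePrimes W a S x).card : ℝ) / (√(x : ℝ) / Real.log x)) atTop (nhds C))

/-- The assertion in mean square over the traces `|a| ≤ A x`, for the primes in `S`, with the constants `c a`. -/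
def MeanSquare (W : WeierstrassCurve ℤ) (S : Set ℕ) (c : ℤ → ℝ) (A : ℕ → ℕ) : Prop :=
  Tendsto (fun x : ℕ => (∑ a ∈ Icc (-(A x : ℤ)) (A x),
    (((tracePrimes W a S x).card : ℝ) - c a * (√(x : ℝ) / Real.log x)) ^ 2) / (A x * (√(x : ℝ) / Real.log x) ^ 2))
    atTop (nhds 0)

/-- The whole Lang-Trotter conjecture for the primes in `S`, with the constants `v C_{E,a}`; here `C_{E,a}` is `2 / π` times
the limit of `k!` times the density of the primes with `a_p(E) = a` modulo `k!`. (`Conjecture Set.univ 1` is Q1.) -/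
def Conjecture (S : Set ℕ) (v : ℝ) : Prop :=
  ∀ W : WeierstrassCurve ℤ, W.Δ ≠ 0 →
    (∀ j ∈ ({0, 1728, -3375, 8000, -32768, 54000, 287496, -884736, -12288000,
        16581375, -884736000, -147197952000, -262537412640768000} : Finset ℤ), W.c₄ ^ 3 ≠ j * W.Δ) →
    ∀ a : ℤ, ∃ C : ℝ, 0 ≤ C ∧ ∃ d : ℕ → ℝ,
      (∀ m : ℕ, 0 < m → Tendsto (fun n : ℕ =>
        (((range (n + 1)).filter (fun p => p.Prime ∧ (m : ℤ) ∣ ap W p - a)).card : ℝ) /
          (((range (n + 1)).filter Nat.Prime).card : ℝ)) atTop (nhds (d m))) ∧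
      Tendsto (fun k : ℕ => (2 / Real.pi) * ((k.factorial : ℝ) * d k.factorial)) atTop (nhds C) ∧
      LangTrotter W a S (v * C)

lemma card_mono (W : WeierstrassCurve ℤ) (a : ℤ) (S : Set ℕ) : Monotone fun x => (tracePrimes W a S x).card := by
  intro x y hxy
  apply card_le_card
  unfold tracePrimes
  intro p hp
  simp only [mem_filter, mem_range] at hp ⊢
  exact ⟨by omega, hp.2⟩

lemma card_le_univ (W : WeierstrassCurve ℤ) (a : ℤ) (S : Set ℕ) (x : ℕ) :
    (tracePrimes W a S x).card ≤ (tracePrimes W a Set.univ x).card := by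
  apply card_le_card
  unfold tracePrimes
  intro p hp
  simp only [mem_filter, Set.mem_univ, and_true] at hp ⊢
  exact ⟨hp.1, hp.2.1, hp.2.2.1, hp.2.2.2.1⟩

lemma trotter_iff {W : WeierstrassCurve ℤ} {a : ℤ} {S : Set ℕ} {v C : ℝ} (hv : 0 < v)
    (H : ∃ K₀ : ℕ, ∀ x : ℕ, K₀ ≤ (tracePrimes W a Set.univ x).card →
      (((tracePrimes W a S x).card : ℝ) - v * (tracePrimes W a Set.univ x).card) ^ 2 ≤
        (tracePrimes W a Set.univ x).card * Real.log (tracePrimes W a Set.univ x).card ^ 11) :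
    LangTrotter W a Set.univ C ↔ LangTrotter W a S (v * C) := by
  unfold LangTrotter
  have h1 := bdd_iff (P := fun x => (tracePrimes W a Set.univ x).card) (Q := fun x => (tracePrimes W a S x).card)
    hv (card_mono W a _) (card_le_univ W a S) H
  have h2 : (C = 0) ↔ (v * C = 0) := by
    constructor
    · rintro rfl
      exact mul_zero _
    · intro h
      exact (mul_eq_zero.1 h).resolve_left hv.ne'
  have h3 : (0 < C) ↔ (0 < v * C) := (mul_pos_iff_of_pos_left hv).symm
  rw [← h2, ← h3]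
  constructor
  · rintro ⟨h4, h5⟩
    exact ⟨fun h => h1.1 (h4 h), fun h => (lim_iff hv h sqrt_div_log (card_le_univ W a S) H).1 (h5 h)⟩
  · rintro ⟨h4, h5⟩
    exact ⟨fun h => h1.2 (h4 h), fun h => (lim_iff hv h sqrt_div_log (card_le_univ W a S) H).2 (h5 h)⟩

lemma mean_lemma {W : WeierstrassCurve ℤ} {S : Set ℕ} {v : ℝ} (hv : 0 < v)
    (H : ∃ x₀ : ℕ, ∀ x : ℕ, x₀ ≤ x → ∀ A : Finset ℤ,
      ∑ a ∈ A, (((tracePrimes W a S x).card : ℝ) - v * (tracePrimes W a Set.univ x).card) ^ 2 ≤ x * Real.log x ^ 11)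
    (c : ℤ → ℝ) (A : ℕ → ℕ) (hA : Tendsto (fun x : ℕ => (A x : ℝ) / Real.log x ^ 13) atTop atTop) :
    MeanSquare W Set.univ c A ↔ MeanSquare W S (fun a => v * c a) A := by
  unfold MeanSquare
  refine mean_iff (fun x => Icc (-(A x : ℤ)) (A x)) (fun a x => ((tracePrimes W a Set.univ x).card : ℝ))
    (fun a x => ((tracePrimes W a S x).card : ℝ)) c (fun x => √(x : ℝ) / Real.log x)
    (fun x => A x * (√(x : ℝ) / Real.log x) ^ 2) hv (fun x => by positivity) ?_
  obtain ⟨x₀, H⟩ := H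
  have h1 : Tendsto (fun x : ℕ => ((A x : ℝ) / Real.log x ^ 13)⁻¹) atTop (nhds 0) := hA.inv_tendsto_atTop
  refine squeeze_zero' (Eventually.of_forall fun x => div_nonneg (sum_nonneg fun _ _ => sq_nonneg _) (by positivity)) ?_ h1
  filter_upwards [eventually_ge_atTop x₀, eventually_ge_atTop 2, hA.eventually_gt_atTop 0] with x hx hx2 hpos
  have hx0 : (0 : ℝ) < x := by
    have : 0 < x := by omega
    exact_mod_cast this
  have hl : 0 < Real.log x := Real.log_pos (by exact_mod_cast (by omega : 1 < x))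
  have hA0 : (0 : ℝ) < A x := by
    by_contra hcon
    have : (A x : ℝ) = 0 := le_antisymm (not_lt.1 hcon) (by positivity)
    rw [this, zero_div] at hpos
    exact lt_irrefl _ hpos
  rw [div_pow, Real.sq_sqrt hx0.le, div_le_iff₀ (by positivity)]
  refine (H x hx _).trans (le_of_eq ?_)
  field_simp

lemma conj_iff {S : Set ℕ} {v : ℝ}
    (H : ∀ (W : WeierstrassCurve ℤ) (a : ℤ) (C : ℝ), LangTrotter W a Set.univ C ↔ LangTrotter W a S (v * C)) :
    Conjecture Set.univ 1 ↔ Conjecture S v := by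
  unfold Conjecture
  simp only [one_mul, H]

/-- **The Lang-Trotter primes and almost every rotation.** -/
theorem result :
    (∀ᵐ α : ℝ, ∀ W : WeierstrassCurve ℤ,
      (∃ x₀ : ℕ, ∀ x : ℕ, x₀ ≤ x → ∀ v : ℝ, 0 ≤ v → v ≤ 1 → ∀ A : Finset ℤ,
        ∑ a ∈ A, (((tracePrimes W a (arc α v) x).card : ℝ) - v * (tracePrimes W a Set.univ x).card) ^ 2 ≤
          x * Real.log x ^ 11) ∧
      (∀ a : ℤ, ∃ K₀ : ℕ, ∀ x : ℕ, K₀ ≤ (tracePrimes W a Set.univ x).card → ∀ v : ℝ, 0 ≤ v → v ≤ 1 →
        (((tracePrimes W a (arc α v) x).card : ℝ) - v * (tracePrimes W a Set.univ x).card) ^ 2 ≤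
          (tracePrimes W a Set.univ x).card * Real.log (tracePrimes W a Set.univ x).card ^ 11)) ∧
    (∀ δ : ℕ → ℝ, (∀ k, 0 ≤ δ k ∧ δ k ≤ 1) → Antitone δ → ∀ᵐ α : ℝ, ∀ W : WeierstrassCurve ℤ,
      (∃ x₀ : ℕ, ∀ x : ℕ, x₀ ≤ x → ∀ A : Finset ℤ,
        ∑ a ∈ A, (((tracePrimes W a (target α δ) x).card : ℝ) - ∑ p ∈ tracePrimes W a Set.univ x, δ p) ^ 2 ≤
          (1 + ∑ p ∈ (range (x + 1)).filter Nat.Prime, δ p) * Real.log x ^ 7) ∧
      (∀ a : ℤ, ∃ K₀ : ℕ, ∀ x : ℕ, K₀ ≤ (tracePrimes W a Set.univ x).card →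
        (((tracePrimes W a (target α δ) x).card : ℝ) - ∑ p ∈ tracePrimes W a Set.univ x, δ p) ^ 2 ≤
          (1 + ∑ p ∈ tracePrimes W a Set.univ x, δ p) * Real.log (tracePrimes W a Set.univ x).card ^ 7)) ∧
    (∀ᵐ α : ℝ, ∀ v : ℝ, 0 < v → v ≤ 1 →
      (∀ (W : WeierstrassCurve ℤ) (a : ℤ) (C : ℝ), LangTrotter W a Set.univ C ↔ LangTrotter W a (arc α v) (v * C)) ∧
      (∀ (W : WeierstrassCurve ℤ) (c : ℤ → ℝ) (A : ℕ → ℕ),
        Tendsto (fun x : ℕ => (A x : ℝ) / Real.log x ^ 13) atTop atTop →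
        (MeanSquare W Set.univ c A ↔ MeanSquare W (arc α v) (fun a => v * c a) A)) ∧
      (Conjecture Set.univ 1 ↔ Conjecture (arc α v) v)) ∧
    (∀ᵐ θ : ℝ, 0 < θ → θ < 1 →
      (∀ (W : WeierstrassCurve ℤ) (a : ℤ) (C : ℝ), LangTrotter W a Set.univ C ↔ LangTrotter W a (beatty θ) (θ * C)) ∧
      (∀ (W : WeierstrassCurve ℤ) (c : ℤ → ℝ) (A : ℕ → ℕ),
        Tendsto (fun x : ℕ => (A x : ℝ) / Real.log x ^ 13) atTop atTop →
        (MeanSquare W Set.univ c A ↔ MeanSquare W (beatty θ) (fun a => θ * c a) A)) ∧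
      (Conjecture Set.univ 1 ↔ Conjecture (beatty θ) θ)) := by
  have hMom := Pool.Agent.H59.MR.mom Pool.Agent.H85.MR.cov Pool.Agent.H85.MR.var
  have hE := Pool.Agent.H59.MR.exp hMom
  have hM : S_MET := met Pool.Agent.H40.MR.dy Pool.Agent.H40.MR.sup hE
  have hT : S_THIN := thin Pool.Agent.H40.MR.sup hE
  have hA : ∀ᵐ α : ℝ, ∀ W : WeierstrassCurve ℤ,
      (∃ x₀ : ℕ, ∀ x : ℕ, x₀ ≤ x → ∀ v : ℝ, 0 ≤ v → v ≤ 1 → ∀ A : Finset ℤ,
        ∑ a ∈ A, (((tracePrimes W a (arc α v) x).card : ℝ) - v * (tracePrimes W a Set.univ x).card) ^ 2 ≤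
          x * Real.log x ^ 11) ∧
      (∀ a : ℤ, ∃ K₀ : ℕ, ∀ x : ℕ, K₀ ≤ (tracePrimes W a Set.univ x).card → ∀ v : ℝ, 0 ≤ v → v ≤ 1 →
        (((tracePrimes W a (arc α v) x).card : ℝ) - v * (tracePrimes W a Set.univ x).card) ^ 2 ≤
          (tracePrimes W a Set.univ x).card * Real.log (tracePrimes W a Set.univ x).card ^ 11) := by
    rw [ae_all_iff]
    intro W
    refine (allTraces hM W).and ?_
    rw [ae_all_iff]
    exact fun a => oneTrace hM W a
  have hB := ae_neg hA
  refine ⟨hA, ?_, ?_, ?_⟩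
  · intro δ hδ hδa
    rw [ae_all_iff]
    intro W
    refine (allTargets hT δ hδ hδa W).and ?_
    rw [ae_all_iff]
    exact fun a => oneTarget hT δ hδ hδa W a
  · filter_upwards [hA] with α hα v hv0 hv1
    have h1 : ∀ (W : WeierstrassCurve ℤ) (a : ℤ) (C : ℝ),
        LangTrotter W a Set.univ C ↔ LangTrotter W a (arc α v) (v * C) := by
      intro W a C
      obtain ⟨K₀, h⟩ := (hα W).2 a
      exact trotter_iff hv0 ⟨K₀, fun x hx => h x hx v hv0.le hv1⟩
    refine ⟨h1, fun W c A hA' => ?_, conj_iff h1⟩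
    obtain ⟨x₀, h⟩ := (hα W).1
    exact mean_lemma hv0 ⟨x₀, fun x hx => h x hx v hv0.le hv1⟩ c A hA'
  · filter_upwards [hB] with θ hθ h0 h1
    have hset : beatty θ = arc (-θ) θ := by
      ext p
      exact beatty_iff h0 h1 p
    rw [hset]
    have h1' : ∀ (W : WeierstrassCurve ℤ) (a : ℤ) (C : ℝ),
        LangTrotter W a Set.univ C ↔ LangTrotter W a (arc (-θ) θ) (θ * C) := by
      intro W a C
      obtain ⟨K₀, h⟩ := (hθ W).2 a
      exact trotter_iff h0 ⟨K₀, fun x hx => h x hx θ h0.le h1.le⟩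
    refine ⟨h1', fun W c A hA' => ?_, conj_iff h1'⟩
    obtain ⟨x₀, h⟩ := (hθ W).1
    exact mean_lemma h0 ⟨x₀, fun x hx => h x hx θ h0.le h1.le⟩ c A hA'

end Pool.Agent.Results.MP_f1937f_nt.AllTracesRotations
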