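import Pool.Agent.H46.LT.Gap3

/-!
# The longest gap between the primes with given Frobenius traces, for almost all members of families of elliptic curves

Let `W 0, …, W (r - 1)` be families of Weierstrass equations whose coefficients are polynomials in `n` variables over `ℤ`, and `S` a
condition on the prime `p` and the Frobenius data modulo `p` of the `r` members at the integer point `v` (for instance `a_p = a`).
In the model of independent uniformly distributed residues modulo the primes the probability that no prime `p` with `a < p ≤ b`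
satisfies the condition is `exp (-(clock b - clock a))`, where `clock y = -∑_{p ≤ y} log (1 - freq p)` and `freq p` is the
proportion of the residues modulo `p` with the condition; if `freq p` tends to `0` the clock is asymptotic to the expected number of
the primes `p ≤ y` with the condition (for the condition `a_p = a` in the family of all curves: about `√y / log y`).

For almost every member the longest gap between the primes `p ≤ x` with the condition, measured by the clock, is
`(1 + o(1)) log (clock x)`: the law of Cramér for the primes of Lang and Trotter.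
-/

set_option autoImplicit false

namespace Pool.Agent.Results.MP_f1937f_nt.MaximalGaps

open Pool.Agent.K4H16.CG
open Pool.Agent.H46.LT (Hit freq clock gap_upper gap_lower or_card clock_small)

open Classical in
/-- **The longest gap between the primes with given Frobenius traces.** For all `n` and `0 < δ ≤ 1` there are `A`, `κ > 0` and `C₀`
such that for all families `W` of Weierstrass equations in `n` parameters and all conditions `S` with `freq p ≤ 1 / 2` for all primes
`p`, all `x` with `clock x ≥ C₀` and all boxes with sides at least `x ^ (A log (clock x))`, at any place, all but a proportion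
`(clock x) ^ (-κ)` of the points `v` of the box have the following property:

* ALL intervals `(a, b]` with `b ≤ x` and `clock b - clock a ≥ (1 + δ) log (clock x)` contain a prime that satisfies the condition at
  `v`;
* SOME interval `(a, b]` with `b ≤ x` and `clock b - clock a ≥ (1 - δ) log (clock x)` contains no prime that satisfies the condition
  at `v`. -/
theorem result (n : ℕ) (δ : ℝ) (hδ : 0 < δ) (hδ1 : δ ≤ 1) : ∃ A κ C₀ : ℝ, 0 < A ∧ 0 < κ ∧ 3 ≤ C₀ ∧
    ∀ (r : ℕ) (W : Fin r → WeierstrassCurve (MvPolynomial (Fin n) ℤ)) (S : ℕ → (Fin r → Option ℤ) → Prop),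
      (∀ p : ℕ, p.Prime → freq W S p ≤ 1 / 2) → ∀ (x : ℕ) (M : Fin n → ℤ) (N : Fin n → ℕ), C₀ ≤ clock W S x →
      (∀ i, (x : ℝ) ^ (A * Real.log (clock W S x)) ≤ N i) →
      (1 - (clock W S x) ^ (-κ)) * (box M N).card ≤ (((box M N).filter (fun v =>
        (∀ a b : ℕ, a ≤ b → b ≤ x → (1 + δ) * Real.log (clock W S x) ≤ clock W S b - clock W S a →
          ∃ p : ℕ, p.Prime ∧ a < p ∧ p ≤ b ∧ Hit W S p v) ∧
        (∃ a b : ℕ, a ≤ b ∧ b ≤ x ∧ (1 - δ) * Real.log (clock W S x) ≤ clock W S b - clock W S a ∧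
          ∀ p : ℕ, p.Prime → a < p → p ≤ b → ¬ Hit W S p v))).card : ℝ) := by
  obtain ⟨A₁, Λ₁, hA₁, hΛ₁, H₁⟩ := gap_upper n δ hδ hδ1
  obtain ⟨A₂, Λ₂, hA₂, hΛ₂, H₂⟩ := gap_lower n δ hδ hδ1
  refine ⟨max A₁ A₂, δ / 8, max 3 (Real.exp (max (max Λ₁ Λ₂) (96 / δ))), lt_of_lt_of_le (by linarith) (le_max_left _ _), by positivity,
    le_max_left _ _, ?_⟩
  intro r W S hq x M N hV hN
  have hV3 : 3 ≤ clock W S x := (le_max_left _ _).trans hV
  have hV0 : 0 < clock W S x := by linarith
  obtain ⟨l, hl⟩ : ∃ l : ℝ, l = Real.log (clock W S x) := ⟨_, rfl⟩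
  have hVl : clock W S x = Real.exp l := by rw [hl, Real.exp_log hV0]
  have hl' : max (max Λ₁ Λ₂) (96 / δ) ≤ l := by
    rw [hl, Real.le_log_iff_exp_le hV0]
    exact (le_max_right _ _).trans hV
  have hl1 : Λ₁ ≤ l := (le_max_left _ _).trans ((le_max_left _ _).trans hl')
  have hl2 : Λ₂ ≤ l := (le_max_right _ _).trans ((le_max_left _ _).trans hl')
  have hl3 : 96 ≤ δ * l := by
    have h1 : 96 / δ ≤ l := (le_max_right _ _).trans hl'
    rw [div_le_iff₀ hδ] at h1
    linarith
  have hl0 : 0 < l := by linarith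
  have e2 : (clock W S x) ^ (-(δ / 8)) = Real.exp (-(δ / 8 * l)) := by
    rw [Real.rpow_def_of_pos hV0, ← hl]
    congr 1
    ring
  rw [← hl] at hN
  rw [← hl, e2]
  have hx : 1 ≤ x := by
    by_contra hcon
    rw [clock_small W S x (by omega)] at hV0
    exact lt_irrefl _ hV0
  have hx1 : (1 : ℝ) ≤ x := by exact_mod_cast hx
  have hNA : ∀ B : ℝ, B ≤ max A₁ A₂ → ∀ i, (x : ℝ) ^ (B * l) ≤ N i := by
    intro B hB i
    refine le_trans (Real.rpow_le_rpow_of_exponent_le hx1 ?_) (hN i)
    exact mul_le_mul_of_nonneg_right hB hl0.le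
  have u1 := H₁ r W S hq x l M N hVl hl1 (hNA A₁ (le_max_left _ _))
  have u2 := H₂ r W S hq x l M N hVl hl2 (hNA A₂ (le_max_right _ _))
  have hbox0 : (0 : ℝ) ≤ (box M N).card := Nat.cast_nonneg _
  obtain ⟨P, hP⟩ : ∃ P : (Fin n → ℤ) → Prop, P = fun v => ∀ a b : ℕ, a ≤ b → b ≤ x → (1 + δ) * l ≤ clock W S b - clock W S a →
          ∃ p : ℕ, p.Prime ∧ a < p ∧ p ≤ b ∧ Hit W S p v := ⟨_, rfl⟩
  obtain ⟨Q, hQ⟩ : ∃ Q : (Fin n → ℤ) → Prop, Q = fun v => ∃ a b : ℕ, a ≤ b ∧ b ≤ x ∧ (1 - δ) * l ≤ clock W S b - clock W S a ∧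
          ∀ p : ℕ, p.Prime → a < p → p ≤ b → ¬ Hit W S p v := ⟨_, rfl⟩
  have u1' : (((box M N).filter (fun v => ¬ P v)).card : ℝ) ≤ 8 * Real.exp (-(δ / 2 * l)) * (box M N).card := by
    rw [hP]
    exact u1
  have u2' : (((box M N).filter (fun v => ¬ Q v)).card : ℝ) ≤ (Real.exp (-(δ / 4 * l)) + 3 * Real.exp (-(2 * l))) * (box M N).card := by
    rw [hQ]
    exact u2
  have hunion := or_card (box M N) (fun v => ¬ (P v ∧ Q v)) (fun v => ¬ P v) (fun v => ¬ Q v) (fun v h => not_and_or.1 h)
  have htot : (((box M N).filter (fun v => ¬ (P v ∧ Q v))).card : ℝ) ≤ Real.exp (-(δ / 8 * l)) * (box M N).card := by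
    refine hunion.trans ((add_le_add u1' u2').trans ?_)
    obtain ⟨E, hE⟩ : ∃ E : ℝ, E = Real.exp (-(δ / 4 * l)) := ⟨_, rfl⟩
    have h1 : Real.exp (-(δ / 2 * l)) ≤ E := by
      rw [hE]
      apply Real.exp_le_exp.2
      nlinarith
    have h2 : Real.exp (-(2 * l)) ≤ E := by
      rw [hE]
      apply Real.exp_le_exp.2
      nlinarith
    have hE0 : 0 < E := by rw [hE]; exact Real.exp_pos _
    have h3 : 12 * E ≤ Real.exp (-(δ / 8 * l)) := by
      have e : Real.exp (-(δ / 8 * l)) = Real.exp (δ / 8 * l) * E := by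
        rw [hE, ← Real.exp_add]
        congr 1
        ring
      rw [e]
      apply mul_le_mul_of_nonneg_right _ hE0.le
      have h5 := Real.add_one_le_exp (δ / 8 * l)
      linarith
    rw [← hE]
    have g1 := mul_le_mul_of_nonneg_right h1 hbox0
    have g2 := mul_le_mul_of_nonneg_right h2 hbox0
    have g3 := mul_le_mul_of_nonneg_right h3 hbox0
    linarith
  have hsum : (((box M N).filter (fun v => P v ∧ Q v)).card : ℝ) + (((box M N).filter (fun v => ¬ (P v ∧ Q v))).card : ℝ) = (box M N).card := by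
    exact_mod_cast Finset.card_filter_add_card_filter_not (s := box M N) (fun v => P v ∧ Q v)
  have hgoal : (1 - Real.exp (-(δ / 8 * l))) * (box M N).card ≤ (((box M N).filter (fun v => P v ∧ Q v)).card : ℝ) := by
    have e : (1 - Real.exp (-(δ / 8 * l))) * ((box M N).card : ℝ) = (box M N).card - Real.exp (-(δ / 8 * l)) * (box M N).card := by ring
    rw [e]
    linarith
  rw [hP, hQ] at hgoal
  exact hgoal

end Pool.Agent.Results.MP_f1937f_nt.MaximalGaps
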