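import Pool.Agent.H46.LT.Low

/-!
# The modulus of continuity of Lang–Trotter counts in families of elliptic curves

`V y = cov W φ φ y` is the variance of the number `total W φ y v` of the primes `p ≤ y` at which the member of the family at the
integer point `v` satisfies a condition on the traces of Frobenius (for instance `a_p = a`), in the model of independent uniformly
distributed residues modulo the primes; it is the natural clock of the count.  Almost every member satisfies, with the exact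
constant `√2` and for ALL the lengths `m` of windows from `A log (V x)` to `(V x) ^ κ`, Lévy's modulus of continuity: the largest
deviation of the count from its mean over a window `(a, b]`, `b ≤ x`, of clock length `V b - V a ≤ m` is
`(1 + o(1)) √(2 m log (V x))`, in both directions.

The library has the law of the iterated logarithm for the whole intervals `(0, y]` (`IteratedLogarithm` here and in `MP_d74fca_nt`)
and the moderate deviations of one sum (`ModerateDeviations`).
-/

set_option autoImplicit false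

namespace Pool.Agent.Results.MP_f1937f_nt.ModulusOfContinuity

open Pool.Agent.K4H16.CG
open Pool.Agent.H46.LT (upper lower or_card)

lemma exp_one_ge : (2 : ℝ) ≤ Real.exp 1 := by
  have := Real.add_one_le_exp (1 : ℝ)
  linarith

open Classical in
/-- **The modulus of continuity of Lang–Trotter counts, exact constant, both directions.** Let `W 0, …, W (r - 1)` be families of
Weierstrass equations whose coefficients are polynomials in `n` variables over `ℤ`, and `φ` a condition (a function with the values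
`0` and `1`) on the prime `p` and the Frobenius data modulo `p` of the `r` members at the integer point `v` (the trace of Frobenius
`a_p`, or `none` if `p` divides the discriminant). `total W φ y v` is the number of the primes `p ≤ y` that satisfy the condition at
`v`; for the condition `d i = some a` it is the Lang–Trotter count of the primes `p ≤ y` that do not divide the discriminant of
`W i` at `v`, with `a_p = a`. `mean W φ y` and `V y = cov W φ φ y` are the mean and the variance of this number in the model of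
independent uniformly distributed residues modulo the primes.

For all `n` and `0 < δ ≤ 1` there are `A`, `κ > 0` and `V₀` such that for all families and conditions, all `x` with `V x ≥ V₀` and
all boxes with sides at least `x ^ (A log (V x))`, at any place, all but a proportion `(V x) ^ (-κ)` of the points `v` of the box
have the following property for ALL integers `m` with `A log (V x) ≤ m ≤ (V x) ^ κ`:

* for ALL `a ≤ b ≤ x` with `V b - V a ≤ m`, the number of the primes `p` with `a < p ≤ b` that satisfy the condition differs from its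
  mean by at most `(1 + δ) √(2 m log (V x))`;
* for SOME `a ≤ b ≤ x` with `V b - V a ≤ m` it exceeds its mean by at least `(1 - δ) √(2 m log (V x))`;
* for SOME `a ≤ b ≤ x` with `V b - V a ≤ m` it is less than its mean by at least `(1 - δ) √(2 m log (V x))`. -/
theorem result (n : ℕ) (δ : ℝ) (hδ : 0 < δ) (hδ1 : δ ≤ 1) : ∃ A κ V₀ : ℝ, 0 < A ∧ 0 < κ ∧ 3 ≤ V₀ ∧
    ∀ (r : ℕ) (W : Fin r → WeierstrassCurve (MvPolynomial (Fin n) ℤ)) (φ : ℕ → (Fin r → Option ℤ) → ℝ),
      (∀ p d, φ p d = 0 ∨ φ p d = 1) → ∀ (x : ℕ) (M : Fin n → ℤ) (N : Fin n → ℕ), V₀ ≤ cov W φ φ x →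
      (∀ i, (x : ℝ) ^ (A * Real.log (cov W φ φ x)) ≤ N i) →
      (1 - (cov W φ φ x) ^ (-κ)) * (box M N).card ≤ (((box M N).filter (fun v =>
        ∀ m : ℕ, A * Real.log (cov W φ φ x) ≤ m → (m : ℝ) ≤ (cov W φ φ x) ^ κ →
          (∀ a b : ℕ, a ≤ b → b ≤ x → cov W φ φ b - cov W φ φ a ≤ m →
            |(total W φ b v - total W φ a v) - (mean W φ b - mean W φ a)| ≤ (1 + δ) * √(2 * m * Real.log (cov W φ φ x))) ∧
          (∃ a b : ℕ, a ≤ b ∧ b ≤ x ∧ cov W φ φ b - cov W φ φ a ≤ m ∧
            (1 - δ) * √(2 * m * Real.log (cov W φ φ x)) ≤ (total W φ b v - total W φ a v) - (mean W φ b - mean W φ a)) ∧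
          (∃ a b : ℕ, a ≤ b ∧ b ≤ x ∧ cov W φ φ b - cov W φ φ a ≤ m ∧
            (total W φ b v - total W φ a v) - (mean W φ b - mean W φ a) ≤ -((1 - δ) * √(2 * m * Real.log (cov W φ φ x)))))).card : ℝ) := by
  obtain ⟨A₁, Λ₁, hA₁, hΛ₁, H₁⟩ := upper n δ hδ hδ1
  obtain ⟨A₂, Λ₂, κ, hA₂, hΛ₂, hκ0, hκδ, H₂⟩ := lower n δ hδ hδ1
  obtain ⟨κ', hκ'⟩ : ∃ κ' : ℝ, κ' = κ / 2 := ⟨_, rfl⟩
  have hκ'0 : 0 < κ' := by rw [hκ']; positivity
  refine ⟨max A₁ A₂, κ', max 3 (Real.exp (max (max Λ₁ Λ₂) (4 / κ))), lt_of_lt_of_le (by linarith) (le_max_left _ _), hκ'0, le_max_left _ _, ?_⟩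
  intro r W φ h01 x M N hV hN
  have hV3 : 3 ≤ cov W φ φ x := (le_max_left _ _).trans hV
  have hV0 : 0 < cov W φ φ x := by linarith
  obtain ⟨l, hl⟩ : ∃ l : ℝ, l = Real.log (cov W φ φ x) := ⟨_, rfl⟩
  have hVl : cov W φ φ x = Real.exp l := by rw [hl, Real.exp_log hV0]
  have hl' : max (max Λ₁ Λ₂) (4 / κ) ≤ l := by
    rw [hl, Real.le_log_iff_exp_le hV0]
    exact (le_max_right _ _).trans hV
  have hl1 : Λ₁ ≤ l := (le_max_left _ _).trans ((le_max_left _ _).trans hl')
  have hl2 : Λ₂ ≤ l := (le_max_right _ _).trans ((le_max_left _ _).trans hl')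
  have hl3 : 4 ≤ κ * l := by
    have h1 : 4 / κ ≤ l := (le_max_right _ _).trans hl'
    rw [div_le_iff₀ hκ0] at h1
    linarith
  have hl0 : 0 < l := by linarith
  have e1 : (cov W φ φ x) ^ κ' = Real.exp (κ' * l) := by
    rw [Real.rpow_def_of_pos hV0, ← hl, mul_comm]
  have e2 : (cov W φ φ x) ^ (-κ') = Real.exp (-(κ' * l)) := by
    rw [Real.rpow_def_of_pos hV0, ← hl]
    congr 1
    ring
  rw [← hl] at hN
  rw [← hl, e1, e2]
  have hφ : ∀ p d, |φ p d| ≤ 1 := by
    intro p d
    rcases h01 p d with h | h <;> rw [h] <;> norm_num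
  have hx : 1 ≤ x := by
    by_contra hcon
    have h0 : x = 0 := by omega
    rw [h0, cov_zero] at hV0
    exact lt_irrefl _ hV0
  have hx1 : (1 : ℝ) ≤ x := by exact_mod_cast hx
  have hNA : ∀ B : ℝ, B ≤ max A₁ A₂ → ∀ i, (x : ℝ) ^ (B * l) ≤ N i := by
    intro B hB i
    refine le_trans (Real.rpow_le_rpow_of_exponent_le hx1 ?_) (hN i)
    exact mul_le_mul_of_nonneg_right hB hl0.le
  have u1 := H₁ r W φ h01 x l M N hVl hl1 (hNA A₁ (le_max_left _ _))
  have u2 := H₂ r W φ hφ x l M N hVl hl2 (hNA A₂ (le_max_right _ _)) 1 (Or.inl rfl)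
  have u3 := H₂ r W φ hφ x l M N hVl hl2 (hNA A₂ (le_max_right _ _)) (-1) (Or.inr rfl)
  have hbox0 : (0 : ℝ) ≤ (box M N).card := Nat.cast_nonneg _
  -- the exceptional points
  obtain ⟨P, hP⟩ : ∃ P : (Fin n → ℤ) → Prop, P = fun v => ∀ m : ℕ, max A₁ A₂ * l ≤ m → (m : ℝ) ≤ Real.exp (κ' * l) →
          (∀ a b : ℕ, a ≤ b → b ≤ x → cov W φ φ b - cov W φ φ a ≤ m →
            |(total W φ b v - total W φ a v) - (mean W φ b - mean W φ a)| ≤ (1 + δ) * √(2 * m * l)) ∧
          (∃ a b : ℕ, a ≤ b ∧ b ≤ x ∧ cov W φ φ b - cov W φ φ a ≤ m ∧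
            (1 - δ) * √(2 * m * l) ≤ (total W φ b v - total W φ a v) - (mean W φ b - mean W φ a)) ∧
          (∃ a b : ℕ, a ≤ b ∧ b ≤ x ∧ cov W φ φ b - cov W φ φ a ≤ m ∧
            (total W φ b v - total W φ a v) - (mean W φ b - mean W φ a) ≤ -((1 - δ) * √(2 * m * l))) := ⟨_, rfl⟩
  have hA1m : A₁ * l ≤ max A₁ A₂ * l := mul_le_mul_of_nonneg_right (le_max_left _ _) hl0.le
  have hA2m : A₂ * l ≤ max A₁ A₂ * l := mul_le_mul_of_nonneg_right (le_max_right _ _) hl0.le
  have hκ1 : Real.exp (κ' * l) ≤ Real.exp (δ / 64 * l) := by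
    apply Real.exp_le_exp.2
    apply mul_le_mul_of_nonneg_right _ hl0.le
    rw [hκ']
    linarith
  have hκ2 : Real.exp (κ' * l) ≤ Real.exp (κ * l) := by
    apply Real.exp_le_exp.2
    apply mul_le_mul_of_nonneg_right _ hl0.le
    rw [hκ']
    linarith
  have hunion : (((box M N).filter (fun v => ¬ P v)).card : ℝ) ≤
      (((box M N).filter (fun v => ¬ ∀ m : ℕ, A₁ * l ≤ m → (m : ℝ) ≤ Real.exp (δ / 64 * l) → ∀ a b : ℕ, a ≤ b → b ≤ x →
        cov W φ φ b - cov W φ φ a ≤ m → |err W φ b v - err W φ a v| ≤ (1 + δ) * √(2 * m * l))).card : ℝ) +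
      ((((box M N).filter (fun v => ¬ ∀ m : ℕ, A₂ * l ≤ m → (m : ℝ) ≤ Real.exp (κ * l) → ∃ a b : ℕ, a ≤ b ∧ b ≤ x ∧
        cov W φ φ b - cov W φ φ a ≤ m ∧ (1 - δ) * √(2 * m * l) ≤ 1 * (err W φ b v - err W φ a v))).card : ℝ) +
      (((box M N).filter (fun v => ¬ ∀ m : ℕ, A₂ * l ≤ m → (m : ℝ) ≤ Real.exp (κ * l) → ∃ a b : ℕ, a ≤ b ∧ b ≤ x ∧
        cov W φ φ b - cov W φ φ a ≤ m ∧ (1 - δ) * √(2 * m * l) ≤ (-1) * (err W φ b v - err W φ a v))).card : ℝ)) := by
    refine (or_card (box M N) _ (fun v => ¬ ∀ m : ℕ, A₁ * l ≤ m → (m : ℝ) ≤ Real.exp (δ / 64 * l) → ∀ a b : ℕ, a ≤ b → b ≤ x →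
        cov W φ φ b - cov W φ φ a ≤ m → |err W φ b v - err W φ a v| ≤ (1 + δ) * √(2 * m * l))
      (fun v => (¬ ∀ m : ℕ, A₂ * l ≤ m → (m : ℝ) ≤ Real.exp (κ * l) → ∃ a b : ℕ, a ≤ b ∧ b ≤ x ∧
        cov W φ φ b - cov W φ φ a ≤ m ∧ (1 - δ) * √(2 * m * l) ≤ 1 * (err W φ b v - err W φ a v)) ∨
        (¬ ∀ m : ℕ, A₂ * l ≤ m → (m : ℝ) ≤ Real.exp (κ * l) → ∃ a b : ℕ, a ≤ b ∧ b ≤ x ∧
        cov W φ φ b - cov W φ φ a ≤ m ∧ (1 - δ) * √(2 * m * l) ≤ (-1) * (err W φ b v - err W φ a v))) ?_).trans ?_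
    · intro v hv
      by_contra hcon
      rw [not_or, not_or, not_not, not_not, not_not] at hcon
      obtain ⟨c1, c2, c3⟩ := hcon
      apply hv
      rw [hP]
      intro m hm1 hm2
      refine ⟨?_, ?_, ?_⟩
      · intro a b hab hbx hD
        have h1 := c1 m (hA1m.trans hm1) (hm2.trans hκ1) a b hab hbx hD
        have e : (total W φ b v - total W φ a v) - (mean W φ b - mean W φ a) = err W φ b v - err W φ a v := by
          unfold err
          ring
        rw [e]
        exact h1
      · obtain ⟨a, b, h1, h2, h3, h4⟩ := c2 m (hA2m.trans hm1) (hm2.trans hκ2)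
        refine ⟨a, b, h1, h2, h3, ?_⟩
        unfold err at h4
        linarith
      · obtain ⟨a, b, h1, h2, h3, h4⟩ := c3 m (hA2m.trans hm1) (hm2.trans hκ2)
        refine ⟨a, b, h1, h2, h3, ?_⟩
        unfold err at h4
        linarith
    · apply add_le_add le_rfl
      exact or_card (box M N) _ _ _ fun v h => h
  have htot : (((box M N).filter (fun v => ¬ P v)).card : ℝ) ≤ Real.exp (-(κ' * l)) * (box M N).card := by
    refine hunion.trans ((add_le_add u1 (add_le_add u2 u3)).trans ?_)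
    have h1 : Real.exp (-(δ / 64 * l)) ≤ Real.exp (-(2 * κ' * l)) := by
      apply Real.exp_le_exp.2
      have : κ * l ≤ δ / 64 * l := mul_le_mul_of_nonneg_right hκδ hl0.le
      rw [hκ']
      linarith
    have h2 : Real.exp (-(2 * κ * l)) ≤ Real.exp (-(2 * κ' * l)) := by
      apply Real.exp_le_exp.2
      have : 0 ≤ κ * l := by positivity
      rw [hκ']
      linarith
    have h3 : 3 * Real.exp (-(2 * κ' * l)) ≤ Real.exp (-(κ' * l)) := by
      have e : Real.exp (-(κ' * l)) = Real.exp (κ' * l) * Real.exp (-(2 * κ' * l)) := by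
        rw [← Real.exp_add]
        congr 1
        ring
      rw [e]
      apply mul_le_mul_of_nonneg_right _ (Real.exp_pos _).le
      have h4 : (2 : ℝ) ≤ κ' * l := by rw [hκ']; linarith
      have h5 := Real.add_one_le_exp (κ' * l)
      linarith
    have g1 := mul_le_mul_of_nonneg_right h1 hbox0
    have g2 := mul_le_mul_of_nonneg_right h2 hbox0
    have g3 := mul_le_mul_of_nonneg_right h3 hbox0
    linarith
  have hsum : (((box M N).filter P).card : ℝ) + (((box M N).filter (fun v => ¬ P v)).card : ℝ) = (box M N).card := by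
    exact_mod_cast Finset.card_filter_add_card_filter_not (s := box M N) P
  have hgoal : (1 - Real.exp (-(κ' * l))) * (box M N).card ≤ (((box M N).filter P).card : ℝ) := by
    have e : (1 - Real.exp (-(κ' * l))) * ((box M N).card : ℝ) = (box M N).card - Real.exp (-(κ' * l)) * (box M N).card := by ring
    rw [e]
    linarith
  rw [hP] at hgoal
  convert hgoal

end Pool.Agent.Results.MP_f1937f_nt.ModulusOfContinuity
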